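import Pool.Agent.H560.SQ.StmB
import Pool.Agent.H118.SQ.Sq

/-!
# `S_cntSq` of helper560: the number of squarefree polynomials around a square
-/

set_option autoImplicit false

namespace Pool.Agent.H553.SQ

open Polynomial
open scoped Classical
open Pool.Agent.H985.Chow.Asm (G G_inj G_surj G_add mem_deg card_deg coeff_G_even coeff_G_odd)
open Pool.Agent.H694.Typ (Mn mem_Mn card_Mn)
open Pool.Agent.H560.SI (Itv)

section cnt

variable {K : Type} [Field K] [Fintype K]

/-- polynomials of degree less than `a` -/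
noncomputable def Dl (K : Type) [Field K] [Fintype K] (a : ℕ) : Finset K[X] :=
  (Finset.univ : Finset (degreeLT K a)).map ⟨Subtype.val, Subtype.val_injective⟩

theorem mem_Dl {a : ℕ} {x : K[X]} : x ∈ Dl K a ↔ x.degree < (a : WithBot ℕ) := by
  unfold Dl
  rw [Finset.mem_map]
  constructor
  · rintro ⟨y, _, rfl⟩
    exact mem_degreeLT.1 y.2
  · intro h
    exact ⟨⟨x, mem_degreeLT.2 h⟩, Finset.mem_univ _, rfl⟩

theorem card_Dl (a : ℕ) : (Dl K a).card = Fintype.card K ^ a := by
  unfold Dl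
  rw [Finset.card_map, Finset.card_univ, card_deg]

theorem zero_Dl (a : ℕ) : (0 : K[X]) ∈ Dl K a := by
  rw [mem_Dl, degree_zero]
  exact WithBot.bot_lt_coe a

/-- all pairs -/
noncomputable def Al (K : Type) [Field K] [Fintype K] (a b : ℕ) : Finset (K[X] × K[X]) :=
  (Dl K a) ×ˢ ((Dl K b).erase 0)

/-- the coprime pairs -/
noncomputable def Cp (A : K[X]) (a b : ℕ) : Finset (K[X] × K[X]) :=
  (Al K a b).filter (fun p => IsCoprime (A + p.1) p.2)

theorem mem_Al {a b : ℕ} {p : K[X] × K[X]} : p ∈ Al K a b ↔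
    p.1.degree < (a : WithBot ℕ) ∧ p.2.degree < (b : WithBot ℕ) ∧ p.2 ≠ 0 := by
  unfold Al
  rw [Finset.mem_product, Finset.mem_erase, mem_Dl, mem_Dl]
  tauto

theorem card_Al (a b : ℕ) : ((Al K a b).card : ℝ) =
    (Fintype.card K : ℝ) ^ a * ((Fintype.card K : ℝ) ^ b - 1) := by
  unfold Al
  rw [Finset.card_product, Finset.card_erase_of_mem (zero_Dl b), card_Dl, card_Dl, Nat.cast_mul,
    Nat.cast_sub (Nat.one_le_pow _ _ Fintype.card_pos)]
  push_cast
  ring

/-- the monic greatest common divisor -/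
noncomputable def gm (A : K[X]) (p : K[X] × K[X]) : K[X] :=
  EuclideanDomain.gcd (A + p.1) p.2 * C (EuclideanDomain.gcd (A + p.1) p.2).leadingCoeff⁻¹

theorem gcd_ne {A : K[X]} {p : K[X] × K[X]} (h : p.2 ≠ 0) :
    EuclideanDomain.gcd (A + p.1) p.2 ≠ 0 := by
  intro h0
  exact h (EuclideanDomain.gcd_eq_zero_iff.1 h0).2

theorem gm_monic {A : K[X]} {p : K[X] × K[X]} (h : p.2 ≠ 0) : (gm A p).Monic :=
  monic_mul_leadingCoeff_inv (gcd_ne h)

theorem gm_dvd {A : K[X]} {p : K[X] × K[X]} (h : p.2 ≠ 0) :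
    gm A p ∣ EuclideanDomain.gcd (A + p.1) p.2 ∧ EuclideanDomain.gcd (A + p.1) p.2 ∣ gm A p := by
  refine ⟨?_, Dvd.intro _ rfl⟩
  refine ⟨C (EuclideanDomain.gcd (A + p.1) p.2).leadingCoeff, ?_⟩
  unfold gm
  rw [mul_assoc, ← C_mul, inv_mul_cancel₀ (leadingCoeff_ne_zero.2 (gcd_ne h)), C_1, mul_one]

theorem gm_iff {A e : K[X]} {p : K[X] × K[X]} (h : p.2 ≠ 0) (he : e.Monic) :
    gm A p = e ↔ ∃ u v : K[X], A + p.1 = e * u ∧ p.2 = e * v ∧ IsCoprime u v := by
  obtain ⟨d1, d2⟩ := gm_dvd (A := A) h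
  constructor
  · rintro rfl
    obtain ⟨u, hu⟩ := d1.trans (EuclideanDomain.gcd_dvd_left (A + p.1) p.2)
    obtain ⟨v, hv⟩ := d1.trans (EuclideanDomain.gcd_dvd_right (A + p.1) p.2)
    refine ⟨u, v, hu, hv, ?_⟩
    have h1 := EuclideanDomain.gcd_eq_gcd_ab (A + p.1) p.2
    obtain ⟨w, hw⟩ := d2
    refine ⟨EuclideanDomain.gcdA (A + p.1) p.2 * w, EuclideanDomain.gcdB (A + p.1) p.2 * w, ?_⟩
    apply mul_left_cancel₀ (gm_monic (A := A) h).ne_zero
    calc gm A p * (EuclideanDomain.gcdA (A + p.1) p.2 * w * u +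
          EuclideanDomain.gcdB (A + p.1) p.2 * w * v)
        = ((gm A p * u) * EuclideanDomain.gcdA (A + p.1) p.2 +
            (gm A p * v) * EuclideanDomain.gcdB (A + p.1) p.2) * w := by ring
      _ = gm A p := by rw [← hu, ← hv, ← h1, ← hw]
      _ = gm A p * 1 := (mul_one _).symm
  · rintro ⟨u, v, hu, hv, s, t, hst⟩
    apply eq_of_monic_of_associated (gm_monic h) he
    apply associated_of_dvd_dvd
    · have k1 : gm A p ∣ e * u := hu ▸ d1.trans (EuclideanDomain.gcd_dvd_left (A + p.1) p.2)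
      have k2 : gm A p ∣ e * v := hv ▸ d1.trans (EuclideanDomain.gcd_dvd_right (A + p.1) p.2)
      have k3 : e = e * u * s + e * v * t := by
        calc e = e * (s * u + t * v) := by rw [hst, mul_one]
          _ = _ := by ring
      rw [k3]
      exact dvd_add (k1.mul_right s) (k2.mul_right t)
    · exact (EuclideanDomain.dvd_gcd ⟨u, hu⟩ ⟨v, hv⟩).trans d2

theorem deg_mul_lt {e u : K[X]} {j n : ℕ} (he : e.Monic) (hj : e.natDegree = j) (hjn : j ≤ n) :
    (e * u).degree < (n : WithBot ℕ) ↔ u.degree < ((n - j : ℕ) : WithBot ℕ) := by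
  by_cases hu : u = 0
  · rw [hu, mul_zero, degree_zero]
    exact iff_of_true (WithBot.bot_lt_coe _) (WithBot.bot_lt_coe _)
  · have h1 : e * u ≠ 0 := mul_ne_zero he.ne_zero hu
    rw [← natDegree_lt_iff_degree_lt h1, ← natDegree_lt_iff_degree_lt hu,
      natDegree_mul he.ne_zero hu, hj]
    omega

/-- the fibre over `e` -/
theorem card_fib (A : K[X]) {a b j : ℕ} (hb : j < b) (hab : b ≤ a) {e : K[X]} (he : e ∈ Mn K j) :
    ((Al K a b).filter (fun p => gm A p = e)).card = (Cp (A /ₘ e) (a - j) (b - j)).card := by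
  rw [mem_Mn] at he
  obtain ⟨he, hj⟩ := he
  have hdiv : A %ₘ e + e * (A /ₘ e) = A := modByMonic_add_div A e
  have hmod : (A %ₘ e).degree < (a : WithBot ℕ) := by
    refine (degree_modByMonic_lt A he).trans ?_
    rw [degree_eq_natDegree he.ne_zero, hj]
    exact_mod_cast lt_of_lt_of_le hb hab
  symm
  apply Finset.card_bij (fun p _ => (e * p.1 - A %ₘ e, e * p.2))
  · rintro ⟨u, v⟩ hp
    unfold Cp at hp
    rw [Finset.mem_filter, mem_Al] at hp
    obtain ⟨⟨h1, h2, h3⟩, h4⟩ := hp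
    simp only at h1 h2 h3 h4
    have h5 : e * v ≠ 0 := mul_ne_zero he.ne_zero h3
    rw [Finset.mem_filter, mem_Al]
    refine ⟨⟨?_, ?_, h5⟩, ?_⟩
    · refine (degree_sub_le _ _).trans_lt (max_lt ?_ hmod)
      exact (deg_mul_lt he hj (by omega)).2 h1
    · exact (deg_mul_lt he hj (by omega)).2 h2
    · rw [gm_iff h5 he]
      refine ⟨A /ₘ e + u, v, ?_, rfl, h4⟩
      linear_combination -hdiv
  · rintro ⟨u, v⟩ _ ⟨u', v'⟩ _ h
    simp only [Prod.mk.injEq, sub_left_inj] at h
    rw [mul_right_inj' he.ne_zero, mul_right_inj' he.ne_zero] at h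
    rw [h.1, h.2]
  · rintro ⟨x, y⟩ hp
    rw [Finset.mem_filter, mem_Al] at hp
    obtain ⟨⟨h1, h2, h3⟩, h4⟩ := hp
    simp only at h1 h2 h3
    rw [gm_iff h3 he] at h4
    obtain ⟨u, v, hu, hv, huv⟩ := h4
    simp only at hu hv
    have e1 : e * (u - A /ₘ e) = x + A %ₘ e := by linear_combination -hu - hdiv
    refine ⟨(u - A /ₘ e, v), ?_, ?_⟩
    · unfold Cp
      rw [Finset.mem_filter, mem_Al]
      refine ⟨⟨?_, ?_, ?_⟩, ?_⟩
      · rw [← deg_mul_lt he hj (by omega), e1]
        exact (degree_add_le _ _).trans_lt (max_lt h1 hmod)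
      · rw [← deg_mul_lt he hj (by omega), ← hv]
        exact h2
      · intro h0
        apply h3
        simp only at h0
        rw [hv, h0, mul_zero]
      · simp only [add_sub_cancel]
        exact huv
    · simp only [e1, add_sub_cancel_right, ← hv]

theorem card_sum (A : K[X]) {a b : ℕ} (hab : b ≤ a) : (Al K a b).card =
    ∑ j ∈ Finset.range b, ∑ e ∈ Mn K j, (Cp (A /ₘ e) (a - j) (b - j)).card := by
  have hm : ∀ p ∈ Al K a b, (gm A p).natDegree < b := by
    intro p hp
    rw [mem_Al] at hp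
    obtain ⟨h1, h2, h3⟩ := hp
    have h4 : gm A p ∣ p.2 := (gm_dvd h3).1.trans (EuclideanDomain.gcd_dvd_right _ _)
    have h5 := natDegree_le_of_dvd h4 h3
    have h6 := (natDegree_lt_iff_degree_lt h3).2 h2
    omega
  rw [Finset.card_eq_sum_card_fiberwise (f := fun p => (gm A p).natDegree) (t := Finset.range b)
    (fun p hp => Finset.mem_coe.2 (Finset.mem_range.2 (hm p (Finset.mem_coe.1 hp))))]
  refine Finset.sum_congr rfl fun j hj => ?_
  rw [Finset.mem_range] at hj
  rw [Finset.card_eq_sum_card_fiberwise (f := fun p => gm A p) (t := Mn K j) (by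
    intro p hp
    have hp' := Finset.mem_filter.1 (Finset.mem_coe.1 hp)
    exact Finset.mem_coe.2 (mem_Mn.2 ⟨gm_monic (mem_Al.1 hp'.1).2.2, hp'.2⟩))]
  refine Finset.sum_congr rfl fun e he => ?_
  rw [← card_fib A hj hab he, Finset.filter_filter]
  congr 1
  apply Finset.filter_congr
  intro p _
  constructor
  · exact fun h => h.2
  · intro h
    exact ⟨by rw [h]; exact (mem_Mn.1 he).2, h⟩

theorem card_Cp (b : ℕ) : ∀ (a : ℕ) (A : K[X]), b + 1 ≤ a → ((Cp A a (b + 1)).card : ℝ) =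
    (Fintype.card K : ℝ) ^ (a + b) * ((Fintype.card K : ℝ) - 1) := by
  induction b using Nat.strong_induction_on with
  | _ b ih =>
    intro a A hab
    obtain ⟨Q, hQ⟩ : ∃ Q : ℝ, Q = (Fintype.card K : ℝ) := ⟨_, rfl⟩
    have h1 := card_sum A hab
    have h2 : Mn K 0 = {1} := by
      ext e
      rw [mem_Mn, Finset.mem_singleton]
      constructor
      · rintro ⟨k1, k2⟩
        exact k1.natDegree_eq_zero.1 k2
      · rintro rfl
        exact ⟨monic_one, natDegree_one⟩
    rw [Finset.sum_range_succ', h2, Finset.sum_singleton, divByMonic_one, Nat.sub_zero,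
      Nat.sub_zero] at h1
    have h3 : ((Al K a (b + 1)).card : ℝ) = (∑ j ∈ Finset.range b, ∑ e ∈ Mn K (j + 1),
        ((Cp (A /ₘ e) (a - (j + 1)) (b + 1 - (j + 1))).card : ℝ)) +
          ((Cp A a (b + 1)).card : ℝ) := by
      rw [h1]
      push_cast
      rfl
    rw [card_Al, ← hQ] at h3
    have h4 : ∑ j ∈ Finset.range b, ∑ e ∈ Mn K (j + 1),
        ((Cp (A /ₘ e) (a - (j + 1)) (b + 1 - (j + 1))).card : ℝ) =
        ∑ j ∈ Finset.range b, Q ^ a * (Q ^ (b - 1 - j) * (Q - 1)) := by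
      refine Finset.sum_congr rfl fun j hj => ?_
      rw [Finset.mem_range] at hj
      have h5 : ∀ e ∈ Mn K (j + 1), ((Cp (A /ₘ e) (a - (j + 1)) (b + 1 - (j + 1))).card : ℝ) =
          Q ^ (a - (j + 1) + (b - (j + 1))) * (Q - 1) := by
        intro e _
        have h6 := ih (b - (j + 1)) (by omega) (a - (j + 1)) (A /ₘ e) (by omega)
        rw [show b - (j + 1) + 1 = b + 1 - (j + 1) by omega, ← hQ] at h6
        exact h6
      rw [Finset.sum_congr rfl h5, Finset.sum_const, card_Mn, nsmul_eq_mul]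
      push_cast
      rw [← hQ, ← mul_assoc, ← pow_add, ← mul_assoc, ← pow_add]
      congr 2
      omega
    rw [h4, ← Finset.mul_sum, Finset.sum_range_reflect (fun i => Q ^ i * (Q - 1)) b,
      ← Finset.sum_mul, geom_sum_mul] at h3
    rw [← hQ]
    have h5 : ((Cp A a (b + 1)).card : ℝ) = Q ^ a * (Q ^ (b + 1) - 1) - Q ^ a * (Q ^ b - 1) := by
      linarith
    rw [h5, pow_add, pow_succ]
    ring

end cnt

section sq

variable {K : Type} [Field K] [Fintype K] [CharP K 2]

theorem G_def (a b : K[X]) : G a b = a ^ 2 + X * b ^ 2 := rfl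

theorem G_degree (h : ℕ) (a b : K[X]) : (G a b).degree < (h : WithBot ℕ) ↔
    a.degree < (((h + 1) / 2 : ℕ) : WithBot ℕ) ∧ b.degree < ((h / 2 : ℕ) : WithBot ℕ) := by
  rw [degree_lt_iff_coeff_zero, degree_lt_iff_coeff_zero, degree_lt_iff_coeff_zero]
  constructor
  · intro hg
    constructor
    · intro i hi
      have h2 := hg (2 * i) (by omega)
      rw [coeff_G_even] at h2
      exact pow_eq_zero_iff (by norm_num) |>.mp h2
    · intro i hi
      have h2 := hg (2 * i + 1) (by omega)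
      rw [coeff_G_odd] at h2
      exact pow_eq_zero_iff (by norm_num) |>.mp h2
  · rintro ⟨h1, h2⟩ k hk
    rcases Nat.even_or_odd' k with ⟨i, rfl | rfl⟩
    · rw [coeff_G_even, h1 i (by omega), zero_pow (by norm_num)]
    · rw [coeff_G_odd, h2 i (by omega), zero_pow (by norm_num)]

theorem deriv_G (a b : K[X]) : derivative (G a b) = b ^ 2 := by
  have h2 : (2 : K[X]) = 0 := by
    have := CharP.cast_eq_zero K[X] 2
    exact_mod_cast this
  rw [G_def, derivative_add, derivative_mul, derivative_X, derivative_pow, derivative_pow]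
  simp only [Nat.cast_ofNat, C_ofNat]
  rw [h2]
  ring

theorem sqf_G (a b : K[X]) : Squarefree (G a b) ↔ IsCoprime a b := by
  rw [← PerfectField.separable_iff_squarefree]
  unfold Separable
  rw [deriv_G, G_def, IsCoprime.add_mul_right_left_iff, IsCoprime.pow_iff two_pos two_pos]

end sq

/-- Task CNT. -/
theorem cntSq : Pool.Agent.H560.SQ.S_cntSq := by
  intro K _ _ _ h A h4 hA hm
  have hmem : ∀ f, f ∈ (Itv K (2 * A.natDegree) h (A ^ 2)).filter Squarefree ↔
      (f - A ^ 2).degree < (h : WithBot ℕ) ∧ Squarefree f := by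
    intro f
    unfold Itv
    rw [Finset.mem_filter, Finset.mem_filter, mem_Mn]
    constructor
    · rintro ⟨⟨_, k2⟩, k3⟩
      exact ⟨k2, k3⟩
    · rintro ⟨k2, k3⟩
      have k4 : (f - A ^ 2).degree < (A ^ 2).degree := by
        rw [degree_eq_natDegree (hm.pow 2).ne_zero, natDegree_pow]
        exact k2.trans_le (by exact_mod_cast hA)
      have k5 : f = A ^ 2 + (f - A ^ 2) := by ring
      refine ⟨⟨⟨?_, ?_⟩, k2⟩, k3⟩
      · rw [k5]
        exact (hm.pow 2).add_of_left k4
      · rw [k5, natDegree_add_eq_left_of_degree_lt k4, natDegree_pow]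
  have hc : ((Itv K (2 * A.natDegree) h (A ^ 2)).filter Squarefree).card =
      (Cp A ((h + 1) / 2) (h / 2)).card := by
    symm
    apply Finset.card_bij (fun p _ => G (A + p.1) p.2)
    · rintro ⟨x, y⟩ hp
      unfold Cp at hp
      rw [Finset.mem_filter, mem_Al] at hp
      obtain ⟨⟨h1, h2, h3⟩, h5⟩ := hp
      simp only at h1 h2 h3 h5
      rw [hmem, sqf_G]
      refine ⟨?_, h5⟩
      have e1 : G (A + x) y - A ^ 2 = G x y := by
        rw [G_def, G_def, CharTwo.add_sq]
        ring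
      simp only [e1]
      exact (G_degree h x y).2 ⟨h1, h2⟩
    · rintro ⟨x, y⟩ _ ⟨x', y'⟩ _ he
      have := G_inj he
      simp only [add_right_inj] at this
      rw [this.1, this.2]
    · intro f hf
      rw [hmem] at hf
      obtain ⟨h1, h2⟩ := hf
      obtain ⟨x, y, hxy⟩ := G_surj (f - A ^ 2)
      have e1 : f = G (A + x) y := by
        have e2 : f = A ^ 2 + G x y := by rw [hxy]; ring
        rw [e2, G_def, G_def, CharTwo.add_sq]
        ring
      rw [← hxy, G_degree] at h1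
      rw [e1, sqf_G] at h2
      refine ⟨(x, y), ?_, e1.symm⟩
      unfold Cp
      rw [Finset.mem_filter, mem_Al]
      refine ⟨⟨h1.1, h1.2, ?_⟩, h2⟩
      intro h0
      simp only at h0
      rw [h0, isCoprime_zero_right] at h2
      have h3 := natDegree_eq_zero_of_isUnit h2
      have h5 : x.degree < A.degree := by
        rw [degree_eq_natDegree hm.ne_zero]
        refine h1.1.trans_le ?_
        exact_mod_cast (by omega : (h + 1) / 2 ≤ A.natDegree)
      rw [natDegree_add_eq_left_of_degree_lt h5] at h3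
      omega
  have h5 := card_Cp (h / 2 - 1) ((h + 1) / 2) A (by omega)
  rw [show h / 2 - 1 + 1 = h / 2 by omega] at h5
  rw [hc, h5]
  have hq0 : (Fintype.card K : ℝ) ≠ 0 := by
    exact_mod_cast Fintype.card_ne_zero
  obtain ⟨n, hn⟩ : ∃ n, h = n + 1 := ⟨h - 1, by omega⟩
  rw [show (h + 1) / 2 + (h / 2 - 1) = n by omega, hn, pow_succ]
  field_simp

end Pool.Agent.H553.SQ
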